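import Pool.Agent.W710.DP.Stm1

/-! Project DP: superadditivity (`S_sup`). -/

set_option autoImplicit false

namespace Pool.Agent.W439.DP

open Pool.Agent.W710.DP Finsupp

section chains
variable {Z Y : Type}

theorem pr_zero_of {A : List Z → ZMod 2} {z : List Z →₀ ZMod 2}
    (h : ∀ t ∈ z.support, A t = 0) : pr A z = 0 := by
  unfold pr
  rw [Finsupp.linearCombination_apply, Finsupp.sum]
  exact Finset.sum_eq_zero fun t ht => by rw [h t ht, smul_zero]

theorem mem_bdL : ∀ (t u : List Z), u ∈ (bdL t).support →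
    u.length + 1 = t.length ∧ ∀ p ∈ u, p ∈ t
  | [], u, h => by simp [bdL] at h
  | x :: t, u, h => by
    classical
    rw [bdL] at h
    rcases Finset.mem_union.1 (Finsupp.support_add h) with h1 | h1
    · have h2 := Finsupp.support_single_subset h1
      simp only [Finset.mem_singleton] at h2
      subst h2
      exact ⟨rfl, fun p hp => List.mem_cons_of_mem _ hp⟩
    · obtain ⟨u', hu', rfl⟩ := Finset.mem_image.1 (Finsupp.mapDomain_support h1)
      have h3 := mem_bdL t u' hu'
      refine ⟨by simp [h3.1], fun p hp => ?_⟩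
      rcases List.mem_cons.1 hp with rfl | hp
      · exact List.mem_cons_self
      · exact List.mem_cons_of_mem _ (h3.2 p hp)

theorem mem_bd {z : List Z →₀ ZMod 2} {t : List Z} (h : t ∈ (bd z).support) :
    ∃ t0 ∈ z.support, t.length + 1 = t0.length ∧ ∀ p ∈ t, p ∈ t0 := by
  by_contra hc
  push_neg at hc
  refine (Finsupp.mem_support_iff.1 h) ?_
  unfold bd
  rw [Finsupp.linearCombination_apply, Finsupp.sum, Finsupp.finset_sum_apply]
  refine Finset.sum_eq_zero fun t0 ht0 => ?_
  rw [Finsupp.smul_apply]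
  have h1 : bdL t0 t = 0 := by
    by_contra h2
    obtain ⟨h3, h4⟩ := mem_bdL t0 t (Finsupp.mem_support_iff.2 h2)
    obtain ⟨p, hp, hp'⟩ := hc t0 ht0 h3
    exact hp' (h4 p hp)
  rw [h1, smul_zero]

theorem bdL_map (f : Z → Y) : ∀ t : List Z, bdL (t.map f) = (bdL t).mapDomain (List.map f)
  | [] => by simp [bdL]
  | x :: t => by
    rw [List.map_cons, bdL, bdL, bdL_map f t, Finsupp.mapDomain_add, Finsupp.mapDomain_single,
      ← Finsupp.mapDomain_comp, ← Finsupp.mapDomain_comp]
    rfl

theorem cob_map (f : Z → Y) (θ : List Y → ZMod 2) (t : List Z) :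
    cob (fun t => θ (t.map f)) t = cob θ (t.map f) := by
  unfold cob pr
  rw [bdL_map, Finsupp.linearCombination_mapDomain]
  rfl

theorem ev_map (f : Z → Y) : ∀ (hs : List (Y → ZMod 2)) (t : List Z),
    ev (hs.map (fun h p => h (f p))) t = ev hs (t.map f)
  | [], t => by cases t <;> simp [ev]
  | h :: hs, [] => by simp [ev]
  | h :: hs, [x] => by simp [ev]
  | h :: hs, x :: y :: t => by
    have h1 := ev_map f hs (y :: t)
    simp only [List.map_cons, ev] at h1 ⊢
    rw [h1]

theorem add_self2 (a : ZMod 2) : a + a = 0 := CharTwo.add_self_eq_zero a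

theorem ev_const : ∀ (hs : List (Z → ZMod 2)) (t : List Z) (i : ℕ) (c : ZMod 2) (f : Z → ZMod 2),
    hs[i]? = some f → (∀ p ∈ t, f p = c) → ev hs t = 0
  | [], t, i, c, f, hi, _ => by simp at hi
  | h :: hs, [], i, c, f, hi, _ => by simp [ev]
  | h :: hs, [x], i, c, f, hi, _ => by simp [ev]
  | h :: hs, x :: y :: t, 0, c, f, hi, hc => by
    simp only [List.getElem?_cons_zero, Option.some.injEq] at hi
    subst hi
    rw [ev, hc x (by simp), hc y (by simp), add_self2, zero_mul]
  | h :: hs, x :: y :: t, i + 1, c, f, hi, hc => by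
    rw [ev, ev_const hs (y :: t) i c f (by simpa using hi)
      (fun p hp => hc p (List.mem_cons_of_mem _ hp)), mul_zero]

theorem ev_one {g : Z → ZMod 2} {t : List Z} (h : ev [g] t ≠ 0) :
    ∃ x ∈ t, ∃ y ∈ t, g x ≠ g y := by
  match t, h with
  | [], h => simp [ev] at h
  | [x], h => simp [ev] at h
  | x :: y :: t, h =>
    refine ⟨x, by simp, y, by simp, fun h1 => h ?_⟩
    rw [ev, h1, add_self2, zero_mul]

end chains

theorem hw_length (n : ℕ) : (hw n).length = n := by simp [hw]

theorem hw_get {n i : ℕ} (h : i < n) : (hw n)[i]? = some (hy i) := by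
  simp [hw, h]

theorem hw_split (n k : ℕ) : hw (n + 1 + k) =
    hw n ++ hy n :: (hw k).map (fun h p => h (shc (n + 1) p)) := by
  have h1 : hw (n + 1 + k) = hw (n + 1) ++ (hw k).map (fun h p => h (shc (n + 1) p)) := by
    unfold hw
    rw [List.range_add, List.map_append, List.map_map, List.map_map]
    congr 1
    refine List.map_congr_left fun i _ => ?_
    funext p
    simp only [Function.comp_apply, hy, shc]
    have e1 : n + 1 + i + 1 = i + 1 + (n + 1) := by ring
    have e2 : n + 1 + i = i + (n + 1) := by ring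
    rw [e1, e2]
  rw [h1]
  unfold hw
  rw [List.range_succ, List.map_append, List.append_assoc]
  rfl

theorem Sw_append (b : ℝ) : ∀ (v u : List Letter) (ζ : Cfg),
    Sw b (v ++ u) ζ = Sw b v ζ + Sw b u (shc v.length ζ)
  | [], u, ζ => by
    have : shc 0 ζ = ζ := rfl
    simp [Sw, this]
  | l :: v, u, ζ => by
    have h1 := Sw_append b v u (shc 1 ζ)
    have h2 : shc v.length (shc 1 ζ) = shc (l :: v).length ζ := rfl
    rw [List.cons_append, Sw, Sw, h1, h2]
    ring

theorem Sw_split (b : ℝ) (v w : List Letter) (ζ : Cfg) :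
    Sw b (v ++ idL :: w) ζ = Sw b v ζ +
      (ζ.2 v.length - b) * (ζ.1 (v.length + 1) - ζ.1 v.length) +
      Sw b w (shc (v.length + 1) ζ) := by
  have h1 : shc 1 (shc v.length ζ) = shc (v.length + 1) ζ := by
    unfold shc
    refine Prod.ext ?_ ?_ <;>
    · funext i
      simp only
      congr 1
      ring
  rw [Sw_append, Sw, h1]
  have e1 : (shc v.length ζ).2 0 = ζ.2 v.length := by simp [shc]
  have e2 : (shc v.length ζ).1 0 = ζ.1 v.length := by simp [shc]
  have e3 : (shc v.length ζ).1 1 = ζ.1 (v.length + 1) := by simp [shc, add_comm]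
  rw [e1, e2, e3]
  simp only [idL]
  ring

theorem good_idL {T e : ℝ} (he : 0 < e) : Good T e idL where
  dx x s := by simpa [idL] using hasDerivAt_const x (0 : ℝ)
  ds x s := by simpa [idL] using hasDerivAt_const s (0 : ℝ)
  per x s := rfl
  lip := ⟨0, le_rfl, fun x s x' s' => by simp [idL]⟩
  half x s s' := by
    simp only [idL, sub_self, abs_zero]
    positivity
  zero x s _ := by simp [idL]
  small x s := by
    simp only [idL, abs_zero]
    exact ⟨by norm_num, by positivity⟩

/-- the points of a tuple which is close, in `Ω`, with bounded steps -/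
structure Pts (T Y ε : ℝ) (N : ℕ) (t : List Cfg) : Prop where
  cl : CloseT N ε t
  om : ∀ p ∈ t, Om T N p
  bd : ∀ p ∈ t, ∀ i < N, |p.1 (i + 1) - p.1 i| ≤ Y

theorem Pts.sub {T Y ε : ℝ} {N : ℕ} {t u : List Cfg} (h : Pts T Y ε N t)
    (hu : ∀ p ∈ u, p ∈ t) : Pts T Y ε N u :=
  ⟨fun p hp q hq => h.cl p (hu p hp) q (hu q hq), fun p hp => h.om p (hu p hp),
    fun p hp => h.bd p (hu p hp)⟩

theorem Pts.fst {T Y ε : ℝ} {n m : ℕ} {t : List Cfg} (h : Pts T Y ε (n + m) t) :
    Pts T Y ε n t :=
  ⟨fun p hp q hq => ⟨fun i hi => (h.cl p hp q hq).1 i (by omega),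
      fun i hi => (h.cl p hp q hq).2 i (by omega)⟩,
    fun p hp i hi => h.om p hp i (by omega), fun p hp i hi => h.bd p hp i (by omega)⟩

theorem Pts.snd {T Y ε : ℝ} {n m : ℕ} {t : List Cfg} (h : Pts T Y ε (m + n) t) :
    Pts T Y ε n (t.map (shc m)) := by
  refine ⟨fun p hp q hq => ?_, fun p hp i hi => ?_, fun p hp i hi => ?_⟩
  · obtain ⟨p', hp', rfl⟩ := List.mem_map.1 hp
    obtain ⟨q', hq', rfl⟩ := List.mem_map.1 hq
    exact ⟨fun i hi => (h.cl p' hp' q' hq').1 (i + m) (by omega),
      fun i hi => (h.cl p' hp' q' hq').2 (i + m) (by omega)⟩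
  · obtain ⟨p', hp', rfl⟩ := List.mem_map.1 hp
    exact h.om p' hp' (i + m) (by omega)
  · obtain ⟨p', hp', rfl⟩ := List.mem_map.1 hp
    have := h.bd p' hp' (i + m) (by omega)
    have e : i + m + 1 = i + 1 + m := by ring
    rw [e] at this
    exact this

/-- a large step is large on the whole tuple, so `hy i` is constant -/
theorem hy_const {T Y ε : ℝ} {N : ℕ} {t : List Cfg} (h : Pts T Y ε N t) (hε : ε ≤ 1 / 4)
    {p : Cfg} (hp : p ∈ t) {i : ℕ} (hi : i < N) (h3 : 3 ≤ |p.1 (i + 1) - p.1 i|) :
    ∃ c : ZMod 2, ∀ q ∈ t, hy i q = c := by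
  refine ⟨hy i p, fun q hq => ?_⟩
  have h1 := abs_le.1 ((h.cl p hp q hq).1 i (by omega))
  have h2 := abs_le.1 ((h.cl p hp q hq).1 (i + 1) (by omega))
  unfold hy
  rcases le_or_gt 0 (p.1 (i + 1) - p.1 i) with h4 | h4
  · rw [abs_of_nonneg h4] at h3
    rw [if_pos (by linarith [h1.1, h1.2, h2.1, h2.2]), if_pos (by linarith)]
  · rw [abs_of_neg h4] at h3
    rw [if_neg (by linarith [h1.1, h1.2, h2.1, h2.2]), if_neg (by linarith)]

/-- a block which is very negative at all points: `ev` vanishes on all subtuples -/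
theorem ev_neg {b T Y ε Mv : ℝ} {v : List Letter}
    (hfar : ∀ ζ, Om T v.length ζ → Sw b v ζ ≤ -Mv →
      ∃ i < v.length, 3 ≤ |ζ.1 (i + 1) - ζ.1 i|) {t : List Cfg}
    (h : Pts T Y ε v.length t) (hε : ε ≤ 1 / 4) (hne : t ≠ [])
    (hneg : ∀ p ∈ t, Sw b v p ≤ -Mv) {u : List Cfg} (hu : ∀ p ∈ u, p ∈ t) :
    ev (hw v.length) u = 0 := by
  obtain ⟨p, hp⟩ := List.exists_mem_of_ne_nil t hne
  obtain ⟨i, hi, h3⟩ := hfar p (h.om p hp) (hneg p hp)
  obtain ⟨c, hc⟩ := hy_const h hε hp hi h3
  exact ev_const _ _ i c (hy i) (hw_get hi) fun q hq => hc q (hu q hq)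

theorem t_sup (h1 : S_bdd) (h2 : S_dual) (h3 : S_tri) (h4 : S_far) (h5 : S_loc) : S_sup := by
  intro b T e v w hpar hv hw' hvne hwne a a1 a2 ha hNN
  by_contra hcon
  rw [not_or] at hcon
  obtain ⟨hn1, hn2⟩ := hcon
  obtain ⟨he, heb, heT⟩ := hpar
  have hb0 : 0 < b := he.trans heb
  have hbT : b < T := by linarith
  have hT0 : 0 < T := hb0.trans hbT
  have hpar' : Par b T e := ⟨he, heb, heT⟩
  set n := v.length with hn
  set k := w.length with hk
  have hn0 : 0 < n := List.length_pos_iff.2 hvne
  have hk0 : 0 < k := List.length_pos_iff.2 hwne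
  have hWg : GoodW T e (v ++ idL :: w) := by
    intro l hl
    rcases List.mem_append.1 hl with hl | hl
    · exact hv l hl
    · rcases List.mem_cons.1 hl with rfl | hl
      · exact good_idL he
      · exact hw' l hl
  have hWl : (v ++ idL :: w).length = n + 1 + k := by
    simp [hn, hk]
    ring
  -- the two dual cochains
  unfold NN at hn1 hn2
  push_neg at hn1 hn2
  obtain ⟨M1, ε1, hε1, hz1⟩ := hn1
  obtain ⟨M2, ε2, hε2, hz2⟩ := hn2
  obtain ⟨η, hη0, hη⟩ := h2 Cfg (hw n) _ _ (not_exists.2 hz1)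
  obtain ⟨θ, hθ0, hθ⟩ := h2 Cfg (hw k) _ _ (not_exists.2 hz2)
  rw [hw_length] at hη hθ
  obtain ⟨Mv, hMv⟩ := h4 b T e v hpar' hv 3
  obtain ⟨Mw, hMw⟩ := h4 b T e w hpar' hw' 3
  rw [← hn] at hMv
  rw [← hk] at hMw
  -- constants
  obtain ⟨δ, hδ, hδa⟩ : ∃ δ : ℝ, 0 < δ ∧ a + 4 * δ = a1 + a2 :=
    ⟨(a1 + a2 - a) / 4, by linarith, by ring⟩
  obtain ⟨m0, hm1, hm2, hmv, hmw, hmT⟩ : ∃ m0 : ℝ, M1 ≤ m0 ∧ M2 ≤ m0 ∧ Mv ≤ m0 ∧ Mw ≤ m0 ∧
      T ≤ m0 := by
    refine ⟨max M1 (max M2 (max Mv (max Mw T))), ?_, ?_, ?_, ?_, ?_⟩ <;> simp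
  obtain ⟨Y, hY, hNNB⟩ := h1 b T e _ hpar' hWg a hNN (3 * (m0 + 1))
  obtain ⟨Lv, hLv0, hLv⟩ := h5 b T e v hpar' hv Y hY
  obtain ⟨Lw, hLw0, hLw⟩ := h5 b T e w hpar' hw' Y hY
  rw [← hn] at hLv
  rw [← hk] at hLw
  obtain ⟨ε, hε, hεa, hεb, hεc, hεd, hεe, hεf, hεg⟩ : ∃ ε : ℝ, 0 < ε ∧ ε ≤ ε1 ∧ ε ≤ ε2 ∧
      ε ≤ 1 / 4 ∧ Lv * ε ≤ min δ 1 ∧ Lw * ε ≤ min δ 1 ∧ ε * Y ≤ δ ∧ (T + Y + 1) * (2 * ε) ≤ 1 := by
    have hd1 : 0 < min δ 1 := lt_min hδ one_pos
    set K := Lv + Lw + Y + 2 * (T + Y + 1) + 1 with hK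
    have hK0 : 0 < K := by positivity
    have hd2 : 0 < min δ 1 / K := by positivity
    refine ⟨min (min ε1 ε2) (min (1 / 4) (min δ 1 / K)), by positivity, ?_, ?_, ?_, ?_, ?_, ?_, ?_⟩
    · exact (min_le_left _ _).trans (min_le_left _ _)
    · exact (min_le_left _ _).trans (min_le_right _ _)
    · exact (min_le_right _ _).trans (min_le_left _ _)
    all_goals
      set ε := min (min ε1 ε2) (min (1 / 4) (min δ 1 / K)) with hεdef
      have hle : ε ≤ min δ 1 / K := (min_le_right _ _).trans (min_le_right _ _)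
      have hpos : 0 < ε := by positivity
      have hle2 : K * ε ≤ min δ 1 := by
        rw [le_div_iff₀ hK0] at hle
        linarith
      have hT1 : 0 ≤ T * ε := by positivity
      have hY1 : 0 ≤ Y * ε := by positivity
      have hv1 : 0 ≤ Lv * ε := by positivity
      have hw1 : 0 ≤ Lw * ε := by positivity
      have hKe : K * ε = Lv * ε + Lw * ε + Y * ε + 2 * (T * ε + Y * ε + ε) + ε := by
        rw [hK]
        ring
    · linarith
    · linarith
    · linarith [min_le_left δ 1]
    · linarith [min_le_right δ 1]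
  obtain ⟨z, hz, hbz, hpz⟩ := hNNB ε hε
  rw [hWl] at hz hpz
  -- points of tuples of z
  have hzP : ∀ t ∈ z.support, Pts T Y ε (n + 1 + k) t := fun t ht =>
    ⟨(hz t ht).2.1, fun p hp => ((hz t ht).2.2 p hp).1.1, fun p hp => ((hz t ht).2.2 p hp).2⟩
  have hzl : ∀ t ∈ z.support, t.length = n + 1 + k + 1 := fun t ht => by
    rw [(hz t ht).1, hw_length]
  set kk : List (Cfg → ZMod 2) := (hw k).map (fun h p => h (shc (n + 1) p)) with hkk
  set θ' : List Cfg → ZMod 2 := fun t => θ (t.map (shc (n + 1))) with hθ'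
  set g : Cfg → ZMod 2 := fun ζ => if ζ.2 n < b then 1 else 0 with hg
  have hkkl : kk.length = k := by rw [hkk, List.length_map, hw_length]
  have hkkne : kk ≠ [] := by
    rw [← List.length_pos_iff, hkkl]
    exact hk0
  have hhne : hw n ≠ [] := by
    rw [← List.length_pos_iff, hw_length]
    exact hn0
  have htri := h3 Cfg (hw n) kk (hy n) g η θ' z hhne hkkne (fun t ht => by
    rw [hzl t ht, hw_length, hkkl]
    ring)
  rw [← hw_split, hpz, hw_length] at htri
  -- Claim A
  have hA : ∀ t ∈ z.support, (ev (hw n) (t.take (n + 1)) + cob η (t.take (n + 1))) *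
        ev [g] (t.drop n) *
        (ev kk (t.drop (n + 1)) + cob θ' (t.drop (n + 1))) = 0 := by
    intro t ht
    have hP := hzP t ht
    by_cases hg0 : ev [g] (t.drop n) = 0
    · rw [hg0, mul_zero, zero_mul]
    obtain ⟨x, hx, y, hy', hxy⟩ := ev_one hg0
    have hx := List.mem_of_mem_drop hx
    have hy' := List.mem_of_mem_drop hy'
    have hSn : ∀ q ∈ t, |q.2 n - b| ≤ ε := by
      intro q hq
      have e1 := abs_le.1 ((hP.cl q hq x hx).2 n (by omega))
      have e2 := abs_le.1 ((hP.cl q hq y hy').2 n (by omega))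
      simp only [hg] at hxy
      rw [abs_le]
      by_cases c1 : x.2 n < b
      · by_cases c2 : y.2 n < b
        · rw [if_pos c1, if_pos c2] at hxy
          exact absurd rfl hxy
        · constructor <;> linarith [e1.1, e1.2, e2.1, e2.2, not_lt.1 c2]
      · by_cases c2 : y.2 n < b
        · constructor <;> linarith [e1.1, e1.2, e2.1, e2.2, not_lt.1 c1]
        · rw [if_neg c1, if_neg c2] at hxy
          exact absurd rfl hxy
    have hxa : Sw b (v ++ idL :: w) x ≤ a := ((hz t ht).2.2 x hx).1.2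
    rw [Sw_split, ← hn] at hxa
    have hxm : -(ε * Y) ≤ (x.2 n - b) * (x.1 (n + 1) - x.1 n) := by
      have e1 := hP.bd x hx n (by omega)
      have e2 : |(x.2 n - b) * (x.1 (n + 1) - x.1 n)| ≤ ε * Y := by
        rw [abs_mul]
        exact mul_le_mul (hSn x hx) e1 (abs_nonneg _) hε.le
      exact (abs_le.1 e2).1
    have hor : Sw b v x ≤ a1 - δ ∨ Sw b w (shc (n + 1) x) ≤ a2 - δ := by
      by_contra hc
      push_neg at hc
      linarith [hc.1, hc.2]
    rcases hor with hor | hor
    · -- first block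
      have hall : ∀ q ∈ t, Sw b v q ≤ a1 := by
        intro q hq
        have := hLv x q ε hε.le (fun i hi => hP.om x hx i (by omega))
          (fun i hi => hP.om q hq i (by omega)) (fun i hi => hP.bd x hx i (by omega))
          (fun i hi => hP.bd q hq i (by omega))
          ⟨fun i hi => (hP.cl x hx q hq).1 i (by omega),
            fun i hi => (hP.cl x hx q hq).2 i (by omega)⟩
        have := (abs_le.1 this).1
        linarith [min_le_left δ 1]
      have e1 : ev (hw n) (t.take (n + 1)) = cob η (t.take (n + 1)) := by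
        refine hη _ ?_ ⟨?_, ?_⟩
        · rw [List.length_take, hzl t ht]
          omega
        · intro p hp q hq
          have hp := List.mem_of_mem_take hp
          have hq := List.mem_of_mem_take hq
          exact ⟨fun i hi => ((hP.cl p hp q hq).1 i (by omega)).trans hεa,
            fun i hi => ((hP.cl p hp q hq).2 i (by omega)).trans hεa⟩
        · intro p hp
          have hp := List.mem_of_mem_take hp
          exact ⟨fun i hi => hP.om p hp i (by omega), hall p hp⟩
      rw [e1, add_self2, zero_mul, zero_mul]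
    · -- second block
      have hall : ∀ q ∈ t, Sw b w (shc (n + 1) q) ≤ a2 := by
        intro q hq
        have hP2 : Pts T Y ε k (t.map (shc (n + 1))) := hP.snd
        have mx : shc (n + 1) x ∈ t.map (shc (n + 1)) := List.mem_map_of_mem hx
        have mq : shc (n + 1) q ∈ t.map (shc (n + 1)) := List.mem_map_of_mem hq
        have := hLw _ _ ε hε.le (hP2.om _ mx) (hP2.om _ mq) (hP2.bd _ mx) (hP2.bd _ mq)
          (hP2.cl _ mx _ mq)
        have := (abs_le.1 this).1
        linarith [min_le_left δ 1]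
      have e1 : ev kk (t.drop (n + 1)) = cob θ' (t.drop (n + 1)) := by
        rw [hkk, ev_map, hθ', cob_map]
        have hP2 : Pts T Y ε k (t.map (shc (n + 1))) := hP.snd
        have hsub : ∀ p ∈ (t.drop (n + 1)).map (shc (n + 1)), p ∈ t.map (shc (n + 1)) := by
          intro p hp
          obtain ⟨q, hq, rfl⟩ := List.mem_map.1 hp
          exact List.mem_map_of_mem (List.mem_of_mem_drop hq)
        have hP3 := hP2.sub hsub
        refine hθ _ ?_ ⟨?_, ?_⟩
        · rw [List.length_map, List.length_drop, hzl t ht]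
          omega
        · intro p hp q hq
          have := hP3.cl p hp q hq
          exact ⟨fun i hi => (this.1 i hi).trans hεb, fun i hi => (this.2 i hi).trans hεb⟩
        · intro p hp
          refine ⟨hP3.om p hp, ?_⟩
          obtain ⟨q, hq, rfl⟩ := List.mem_map.1 hp
          exact hall q (List.mem_of_mem_drop hq)
      rw [e1, add_self2, mul_zero]
  -- Claim B
  have hB : ∀ t ∈ (bd z).support,
      ev (hw n) (t.take (n + 1)) * u0 (fun p => hy n p + g p) (t.drop n) * ev kk (t.drop n) +
        ev (hw n) (t.take (n + 1)) * ev [g] (t.drop n) * θ' (t.drop (n + 1)) +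
        η (t.take n) * ev [g] (t.drop (n - 1)) *
          (ev kk (t.drop n) + cob θ' (t.drop n)) = 0 := by
    intro t ht
    obtain ⟨t0, ht0, hlen, hsub⟩ := mem_bd ht
    rw [hzl t0 ht0] at hlen
    have hP := (hzP t0 ht0).sub hsub
    have hlen' : t.length = n + 1 + k := by omega
    have hne : t ≠ [] := by
      rw [← List.length_pos_iff]
      omega
    obtain ⟨p, hp⟩ := List.exists_mem_of_ne_nil t hne
    have hpM : Sw b (v ++ idL :: w) p ≤ -(3 * (m0 + 1)) := hbz t ht p hp
    rw [Sw_split, ← hn] at hpM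
    have hor : Sw b v p ≤ -(m0 + 1) ∨ (p.2 n - b) * (p.1 (n + 1) - p.1 n) ≤ -(m0 + 1) ∨
        Sw b w (shc (n + 1) p) ≤ -(m0 + 1) := by
      by_contra hc
      push_neg at hc
      linarith [hc.1, hc.2.1, hc.2.2]
    have hP1 : Pts T Y ε n t := by
      have : Pts T Y ε (n + (1 + k)) t := by rwa [← add_assoc]
      exact this.fst
    have hP2 : Pts T Y ε k (t.map (shc (n + 1))) := hP.snd
    rcases hor with hor | hor | hor
    · -- first block
      have hall : ∀ q ∈ t, Sw b v q ≤ -m0 := by
        intro q hq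
        have := hLv p q ε hε.le (hP1.om p hp) (hP1.om q hq) (hP1.bd p hp) (hP1.bd q hq)
          (hP1.cl p hp q hq)
        have := (abs_le.1 this).1
        linarith [min_le_right δ 1]
      have e1 : ev (hw n) (t.take (n + 1)) = 0 :=
        ev_neg hMv hP1 hεc hne (fun q hq => by linarith [hall q hq])
          (fun q hq => List.mem_of_mem_take hq)
      have e2 : η (t.take n) = 0 := hη0 _ fun q hq => by
        have := hall q (List.mem_of_mem_take hq)
        linarith
      rw [e1, e2]
      ring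
    · -- the middle block
      have hall : ∀ q ∈ t, (q.2 n - b) * (q.1 (n + 1) - q.1 n) ≤ -m0 := by
        intro q hq
        have f1 := (hP.cl p hp q hq).2 n (by omega)
        have f2 := abs_le.1 ((hP.cl p hp q hq).1 n (by omega))
        have f3 := abs_le.1 ((hP.cl p hp q hq).1 (n + 1) (by omega))
        have f4 := hP.bd p hp n (by omega)
        have f5 := hP.om q hq n (by omega)
        have f6 : |q.2 n - b| ≤ T := by
          rw [abs_le]
          constructor <;> linarith [f5.1, f5.2]
        have f7 : |(p.1 (n + 1) - p.1 n) - (q.1 (n + 1) - q.1 n)| ≤ 2 * ε := by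
          rw [abs_le]
          constructor <;> linarith [f2.1, f2.2, f3.1, f3.2]
        have f8 : |(p.2 n - q.2 n) * (p.1 (n + 1) - p.1 n) +
            (q.2 n - b) * ((p.1 (n + 1) - p.1 n) - (q.1 (n + 1) - q.1 n))| ≤
            ε * Y + T * (2 * ε) := by
          refine (abs_add_le _ _).trans (add_le_add ?_ ?_)
          · rw [abs_mul]
            exact mul_le_mul f1 f4 (abs_nonneg _) hε.le
          · rw [abs_mul]
            exact mul_le_mul f6 f7 (abs_nonneg _) hT0.le
        have f9 := (abs_le.1 f8).1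
        have f10 : ε * Y + T * (2 * ε) ≤ 1 := by
          have : 0 ≤ ε * Y := by positivity
          nlinarith
        linarith
      have hTm : ∀ q ∈ t, |q.2 n - b| ≤ T := by
        intro q hq
        have f5 := hP.om q hq n (by omega)
        rw [abs_le]
        constructor <;> linarith [f5.1, f5.2]
      have hsign : ∀ q ∈ t, (1 ≤ q.1 (n + 1) - q.1 n ∧ q.2 n < b) ∨
          (q.1 (n + 1) - q.1 n ≤ -1 ∧ b < q.2 n) := by
        intro q hq
        have f1 := hall q hq
        have f2 := abs_le.1 (hTm q hq)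
        rcases lt_trichotomy (q.1 (n + 1) - q.1 n) 0 with c | c | c
        · right
          have c2 : b < q.2 n := by
            by_contra hc
            push_neg at hc
            nlinarith
          refine ⟨?_, c2⟩
          by_contra hc
          push_neg at hc
          nlinarith [f2.1, f2.2]
        · rw [c, mul_zero] at f1
          linarith
        · left
          have c2 : q.2 n < b := by
            by_contra hc
            push_neg at hc
            nlinarith
          refine ⟨?_, c2⟩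
          by_contra hc
          push_neg at hc
          nlinarith [f2.1, f2.2]
      have hmg : ∀ q ∈ t, hy n q + g q = 0 := by
        intro q hq
        simp only [hy, hg]
        rcases hsign q hq with ⟨c1, c2⟩ | ⟨c1, c2⟩
        · rw [if_pos (by linarith), if_pos c2, add_self2]
        · rw [if_neg (by linarith), if_neg (by linarith), add_zero]
      have hgc : ∀ q ∈ t, g q = g p := by
        intro q hq
        have f2 := abs_le.1 ((hP.cl p hp q hq).1 n (by omega))
        have f3 := abs_le.1 ((hP.cl p hp q hq).1 (n + 1) (by omega))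
        simp only [hg]
        rcases hsign q hq with ⟨c1, c2⟩ | ⟨c1, c2⟩ <;> rcases hsign p hp with ⟨d1, d2⟩ | ⟨d1, d2⟩
        · rw [if_pos c2, if_pos d2]
        · linarith [f2.1, f2.2, f3.1, f3.2]
        · linarith [f2.1, f2.2, f3.1, f3.2]
        · rw [if_neg (by linarith), if_neg (by linarith)]
      have e1 : u0 (fun p => hy n p + g p) (t.drop n) = 0 := by
        cases hd : t.drop n with
        | nil => rfl
        | cons x s =>
          have hx : x ∈ t := List.mem_of_mem_drop (i := n) (by rw [hd]; simp)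
          exact hmg x hx
      have e2 : ∀ j, ev [g] (t.drop j) = 0 := fun j =>
        ev_const [g] _ 0 (g p) g (by simp) fun q hq => hgc q (List.mem_of_mem_drop hq)
      rw [e1, e2, e2]
      ring
    · -- second block
      have hall : ∀ q ∈ t, Sw b w (shc (n + 1) q) ≤ -m0 := by
        intro q hq
        have mp : shc (n + 1) p ∈ t.map (shc (n + 1)) := List.mem_map_of_mem hp
        have mq : shc (n + 1) q ∈ t.map (shc (n + 1)) := List.mem_map_of_mem hq
        have := hLw _ _ ε hε.le (hP2.om _ mp) (hP2.om _ mq) (hP2.bd _ mp) (hP2.bd _ mq)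
          (hP2.cl _ mp _ mq)
        have := (abs_le.1 this).1
        linarith [min_le_right δ 1]
      have e1 : ev kk (t.drop n) = 0 := by
        rw [hkk, ev_map]
        refine ev_neg hMw hP2 hεc (by simpa using hne) (fun q hq => ?_) (fun q hq => ?_)
        · obtain ⟨q', hq', rfl⟩ := List.mem_map.1 hq
          linarith [hall q' hq']
        · obtain ⟨q', hq', rfl⟩ := List.mem_map.1 hq
          exact List.mem_map_of_mem (List.mem_of_mem_drop hq')
      have e2 : ∀ u : List Cfg, (∀ q ∈ u, q ∈ t) → θ' u = 0 := by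
        intro u hu
        refine hθ0 _ fun q hq => ?_
        obtain ⟨q', hq', rfl⟩ := List.mem_map.1 hq
        have := hall q' (hu q' hq')
        linarith
      have e3 : cob θ' (t.drop n) = 0 := by
        unfold cob
        refine pr_zero_of fun u hu => ?_
        have := mem_bdL _ _ hu
        exact e2 u fun q hq => List.mem_of_mem_drop (this.2 q hq)
      rw [e1, e2 _ (fun q hq => List.mem_of_mem_drop hq), e3]
      ring
  rw [pr_zero_of hA, pr_zero_of hB, add_zero] at htri
  exact one_ne_zero htri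

end Pool.Agent.W439.DP
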